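import Pool.Agent.helper55.GL.Spec

/-! Module AVG of project gl (MP_51d945_co). -/

set_option autoImplicit false

namespace Pool.Agent.GL

theorem AVG_count {n : ℕ} (x : Fin n) (S : Finset (Fin n)) (hx : x ∉ S) :
    ((Finset.univ : Finset (Finset (Fin n))).filter (fun A => x ∈ A ∧ Disjoint S A)).card
      * 2 ^ (S.card + 1) = 2 ^ n := by
  have e : (Finset.univ : Finset (Finset (Fin n))).filter (fun A => x ∈ A ∧ Disjoint S A)
      = Finset.Icc {x} Sᶜ := by
    ext A
    simp only [Finset.mem_filter, Finset.mem_univ, true_and, Finset.mem_Icc,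
      Finset.singleton_subset_iff]
    refine and_congr Iff.rfl ?_
    rw [disjoint_comm, Finset.subset_compl_iff_disjoint_right]
  rw [e, Finset.card_Icc_finset (by
    rw [Finset.singleton_subset_iff, Finset.mem_compl]; exact hx), Finset.card_compl,
    Fintype.card_fin, Finset.card_singleton, ← pow_add]
  have h1 : (insert x S).card ≤ n := by
    calc (insert x S).card ≤ (Finset.univ : Finset (Fin n)).card := Finset.card_le_univ _
      _ = n := by rw [Finset.card_univ, Fintype.card_fin]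
  rw [Finset.card_insert_of_notMem hx] at h1
  congr 1
  omega

theorem AVG : AVG_stmt := by
  intro n k B S T h
  have hs : ((Finset.univ : Finset (Finset (Fin n))) ×ˢ
      (Finset.univ : Finset (Finset (Fin n)))).Nonempty := ⟨(∅, ∅), by simp⟩
  have hcard : ((Finset.univ : Finset (Finset (Fin n))) ×ˢ
      (Finset.univ : Finset (Finset (Fin n)))).card = 2 ^ n * 2 ^ n := by
    rw [Finset.card_product, Finset.card_univ, Fintype.card_finset, Fintype.card_fin]
  have key : ∑ _p ∈ (Finset.univ : Finset (Finset (Fin n))) ×ˢ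
      (Finset.univ : Finset (Finset (Fin n))), B.card ≤
      ∑ p ∈ (Finset.univ : Finset (Finset (Fin n))) ×ˢ
      (Finset.univ : Finset (Finset (Fin n))), 2 ^ (k + 2) *
      (B.filter (fun e => e.1 ∈ p.1 ∧ e.2 ∈ p.2 ∧ Disjoint (S e) p.1 ∧ Disjoint (T e) p.2)).card := by
    have e1 : ∀ p : Finset (Fin n) × Finset (Fin n),
        (B.filter (fun e => e.1 ∈ p.1 ∧ e.2 ∈ p.2 ∧ Disjoint (S e) p.1 ∧ Disjoint (T e) p.2)).card
        = ∑ e ∈ B, (if (e.1 ∈ p.1 ∧ Disjoint (S e) p.1) ∧ (e.2 ∈ p.2 ∧ Disjoint (T e) p.2)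
            then 1 else 0) := by
      intro p
      rw [Finset.card_filter]
      refine Finset.sum_congr rfl fun e _ => ?_
      congr 1
      exact propext ⟨fun ⟨a, b, c, d⟩ => ⟨⟨a, c⟩, b, d⟩, fun ⟨⟨a, c⟩, b, d⟩ => ⟨a, b, c, d⟩⟩
    simp only [e1]
    rw [← Finset.mul_sum, Finset.sum_comm, Finset.sum_const, hcard, smul_eq_mul]
    have e2 : ∀ e ∈ B, 2 ^ n * 2 ^ n ≤ 2 ^ (k + 2) *
        ∑ p ∈ (Finset.univ : Finset (Finset (Fin n))) ×ˢ (Finset.univ : Finset (Finset (Fin n))),
        (if (e.1 ∈ p.1 ∧ Disjoint (S e) p.1) ∧ (e.2 ∈ p.2 ∧ Disjoint (T e) p.2)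
            then 1 else 0) := by
      intro e he
      obtain ⟨h1, h2, h3⟩ := h e he
      rw [← Finset.card_filter, Finset.filter_product
        (fun A : Finset (Fin n) => e.1 ∈ A ∧ Disjoint (S e) A)
        (fun A : Finset (Fin n) => e.2 ∈ A ∧ Disjoint (T e) A), Finset.card_product]
      have c1 := AVG_count e.1 (S e) h1
      have c2 := AVG_count e.2 (T e) h2
      calc 2 ^ n * 2 ^ n = (((Finset.univ : Finset (Finset (Fin n))).filter
            (fun A => e.1 ∈ A ∧ Disjoint (S e) A)).card * 2 ^ ((S e).card + 1)) *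
            (((Finset.univ : Finset (Finset (Fin n))).filter
            (fun A => e.2 ∈ A ∧ Disjoint (T e) A)).card * 2 ^ ((T e).card + 1)) := by rw [c1, c2]
        _ = 2 ^ ((S e).card + 1 + ((T e).card + 1)) * (((Finset.univ : Finset (Finset (Fin n))).filter
            (fun A => e.1 ∈ A ∧ Disjoint (S e) A)).card *
            ((Finset.univ : Finset (Finset (Fin n))).filter
            (fun A => e.2 ∈ A ∧ Disjoint (T e) A)).card) := by rw [pow_add]; ring
        _ ≤ _ := Nat.mul_le_mul_right _ (Nat.pow_le_pow_right (by norm_num) (by omega))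
    calc 2 ^ n * 2 ^ n * B.card = ∑ e ∈ B, 2 ^ n * 2 ^ n := by
          rw [Finset.sum_const, smul_eq_mul, mul_comm]
      _ ≤ _ := Finset.sum_le_sum e2
      _ = _ := by rw [Finset.mul_sum]
  obtain ⟨p, -, hp⟩ := Finset.exists_le_of_sum_le hs key
  exact ⟨p.1, p.2, hp⟩

end Pool.Agent.GL
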